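import Pool.Agent.Q241.KP.Fam12

/-! # Project KP (helper54), job FAM: selection of a disjoint family of absorbers -/

set_option autoImplicit false

namespace Pool.Agent.Q54.KP

open Finset Filter Topology

lemma nn_fun {V : Type} [Fintype V] (M : ℕ) : nn (Fin M → V) = nn V ^ M := by
  unfold nn
  simp

lemma fam_large (N : ℕ) {b lam : ℝ} (hb : 0 < b) (hlam : 0 < lam) :
    ∀ᶠ n : ℕ in atTop, (n : ℝ) ^ N * Real.exp (-(b * (lam * n - 1))) < 1 / 4 ∧ 2 ≤ lam * n ∧ 1 ≤ n := by
  have hc : 0 < b * lam := mul_pos hb hlam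
  have t1 : Tendsto (fun n : ℕ => b * lam * (n : ℝ)) atTop atTop :=
    tendsto_natCast_atTop_atTop.const_mul_atTop hc
  have t2 := (Real.tendsto_pow_mul_exp_neg_atTop_nhds_zero N).comp t1
  have t3 := t2.const_mul (Real.exp b / (b * lam) ^ N)
  rw [mul_zero] at t3
  have e1 : ∀ᶠ n : ℕ in atTop, (n : ℝ) ^ N * Real.exp (-(b * (lam * n - 1))) < 1 / 4 := by
    filter_upwards [t3.eventually_lt_const (show (0 : ℝ) < 1 / 4 by norm_num)] with n hn
    refine lt_of_eq_of_lt ?_ hn
    simp only [Function.comp]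
    have h1 : Real.exp (-(b * (lam * n - 1))) = Real.exp b * Real.exp (-(b * lam * n)) := by
      rw [← Real.exp_add]
      congr 1
      ring
    rw [h1, mul_pow]
    have h2 : (b * lam) ^ N ≠ 0 := (pow_pos hc N).ne'
    field_simp
    ring
  have t4 : Tendsto (fun n : ℕ => lam * (n : ℝ)) atTop atTop :=
    tendsto_natCast_atTop_atTop.const_mul_atTop hlam
  filter_upwards [e1, t4.eventually_ge_atTop 2, eventually_ge_atTop 1] with n h1 h2 h3
  exact ⟨h1, h2, h3⟩

/-- **FAM** -/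
theorem fam (hF1 : S_FAM1) (hF2 : S_FAM2) : S_FAM := by
  classical
  intro M N γ μ hM hγ hμ
  have hM0 : (0 : ℝ) < M := by exact_mod_cast hM
  by_cases hγ1 : γ ≤ 1
  swap
  · rw [not_le] at hγ1
    refine ⟨1, one_pos, 1, fun V _ _ Gd Ab hAb hn => ⟨∅, by simp, by simp, ?_, fun S hS => ?_⟩⟩
    · have : 0 ≤ nn V := Nat.cast_nonneg _
      simp only [card_empty, Nat.cast_zero, zero_mul]
      positivity
    · exfalso
      have h1 : cnt (Ab S) ≤ nn (Fin M → V) := cnt_le_nn _
      rw [nn_fun] at h1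
      have h2 : 0 < nn V := by
        unfold nn
        exact_mod_cast hn
      have h3 : 0 < nn V ^ M := pow_pos h2 M
      nlinarith
  set lam : ℝ := min (μ / M) (γ / (128 * M ^ 2)) with hlam
  have hlam0 : 0 < lam := lt_min (by positivity) (by positivity)
  have hlam1 : lam * M ≤ μ := by
    rw [← le_div_iff₀ hM0]
    exact min_le_left _ _
  have hlam2 : lam * (128 * M ^ 2) ≤ γ := by
    rw [← le_div_iff₀ (by positivity)]
    exact min_le_right _ _
  set b : ℝ := 3 * γ / 8 with hb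
  have hb0 : 0 < b := by positivity
  obtain ⟨n0, hn0⟩ := eventually_atTop.1 (fam_large N hb0 hlam0)
  refine ⟨γ * lam / 32, by positivity, n0, fun V _ _ Gd Ab hAb hn => ?_⟩
  obtain ⟨hexp, hln, hn1⟩ := hn0 _ hn
  haveI : Nonempty V := Fintype.card_pos_iff.1 hn1
  change (nn V) ^ N * Real.exp (-(b * (lam * nn V - 1))) < 1 / 4 at hexp
  change 2 ≤ lam * nn V at hln
  set n : ℝ := nn V with hnn
  have hnpos : 0 < n := by
    rw [hnn]
    unfold nn
    exact_mod_cast hn1
  set L : ℕ := ⌊lam * n⌋₊ with hL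
  have hL1 : (L : ℝ) ≤ lam * n := Nat.floor_le (by positivity)
  have hL2 : lam * n - 1 < L := Nat.sub_one_lt_floor _
  have hL0 : (0 : ℝ) ≤ L := Nat.cast_nonneg _
  have hΩ : nn (Fin L → Fin M → V) = (n ^ M) ^ L := by
    rw [nn_fun, nn_fun]
  have hΩ0 : 0 < (n ^ M) ^ L := by positivity
  -- the first kind of bad choices
  have hb1 : ∀ S, γ * n ^ M ≤ cnt (Ab S) →
      cnt (fun ω : Fin L → (Fin M → V) => cnt (fun i => Ab S (ω i)) < γ * L / 8) ≤
        Real.exp (-(b * (lam * n - 1))) * (n ^ M) ^ L := by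
    intro S hS
    have h1 := hF1 (Fin M → V) (Ab S) L γ (γ * L / 8) hγ.le hγ1 (by positivity) (by rw [nn_fun]; exact hS)
    rw [nn_fun] at h1
    refine h1.trans (mul_le_mul_of_nonneg_right ?_ hΩ0.le)
    have h2 : (2 : ℝ) ^ (γ * L / 8) ≤ Real.exp (γ * L / 8) := by
      rw [Real.rpow_def_of_pos (by norm_num)]
      refine Real.exp_le_exp.2 ?_
      have h3 : Real.log 2 ≤ 1 := by
        have := Real.log_two_lt_d9
        linarith
      have h4 : 0 ≤ γ * L / 8 := by positivity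
      nlinarith
    have h3 : (1 - γ / 2) ^ L ≤ Real.exp (-(γ / 2)) ^ L :=
      pow_le_pow_left₀ (by linarith) (Real.one_sub_le_exp_neg _) L
    rw [← Real.exp_nat_mul] at h3
    calc (2 : ℝ) ^ (γ * L / 8) * (1 - γ / 2) ^ L ≤ Real.exp (γ * L / 8) * Real.exp (L * -(γ / 2)) :=
          mul_le_mul h2 h3 (pow_nonneg (by linarith) _) (Real.exp_pos _).le
      _ = Real.exp (-(b * L)) := by
          rw [← Real.exp_add, hb]
          congr 1
          ring
      _ ≤ _ := by
          refine Real.exp_le_exp.2 ?_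
          nlinarith
  have hB1 : cnt (fun ω : Fin L → (Fin M → V) => ∃ S, γ * n ^ M ≤ cnt (Ab S) ∧
      cnt (fun i => Ab S (ω i)) < γ * L / 8) < 1 / 4 * (n ^ M) ^ L := by
    refine lt_of_le_of_lt (cnt_exists_le _) ?_
    have h1 : ∀ S : Fin N → V, cnt (fun ω : Fin L → (Fin M → V) => γ * n ^ M ≤ cnt (Ab S) ∧
        cnt (fun i => Ab S (ω i)) < γ * L / 8) ≤ Real.exp (-(b * (lam * n - 1))) * (n ^ M) ^ L := by
      intro S
      by_cases hS : γ * n ^ M ≤ cnt (Ab S)
      · exact (cnt_mono fun ω h => h.2).trans (hb1 S hS)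
      · have h2 : cnt (fun ω : Fin L → (Fin M → V) => γ * n ^ M ≤ cnt (Ab S) ∧
            cnt (fun i => Ab S (ω i)) < γ * L / 8) = 0 := by
          rw [cnt_eq_card]
          have : univ.filter (fun ω : Fin L → (Fin M → V) => γ * n ^ M ≤ cnt (Ab S) ∧
              cnt (fun i => Ab S (ω i)) < γ * L / 8) = ∅ := by
            rw [filter_eq_empty_iff]
            intro ω _ h
            exact hS h.1
          rw [this]
          simp
        rw [h2]
        positivity
    refine lt_of_le_of_lt (sum_le_sum fun S _ => h1 S) ?_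
    rw [sum_const, card_univ, nsmul_eq_mul]
    have h2 : ((Fintype.card (Fin N → V) : ℕ) : ℝ) = n ^ N := nn_fun N
    rw [h2, ← mul_assoc]
    exact mul_lt_mul_of_pos_right hexp hΩ0
  -- the second kind
  set x : ℝ := 4 * lam ^ 2 * M ^ 2 * n with hx
  have hx0 : 0 < x := by positivity
  have hB2 : cnt (fun ω : Fin L → (Fin M → V) =>
      x ≤ cnt (fun p : Fin L × Fin L => p.1 < p.2 ∧ ∃ i j, ω p.1 i = ω p.2 j)) ≤ 1 / 4 * (n ^ M) ^ L := by
    have h1 := hF2 V M L x hx0
    have h2 : (L : ℝ) ^ 2 * M ^ 2 / n ≤ x / 4 := by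
      rw [div_le_iff₀ hnpos, hx]
      have h3 : (L : ℝ) ^ 2 ≤ (lam * n) ^ 2 := pow_le_pow_left₀ hL0 hL1 2
      have h4 : (0 : ℝ) ≤ (M : ℝ) ^ 2 := by positivity
      nlinarith
    have h3 := h1.trans (mul_le_mul_of_nonneg_right h2 hΩ0.le)
    have h5 : x / 4 * (n ^ M) ^ L = 1 / 4 * (n ^ M) ^ L * x := by ring
    rw [h5] at h3
    exact le_of_mul_le_mul_right h3 hx0
  obtain ⟨ω, hω1, hω2⟩ : ∃ ω : Fin L → (Fin M → V), (∀ S, γ * n ^ M ≤ cnt (Ab S) →
      γ * L / 8 ≤ cnt (fun i => Ab S (ω i))) ∧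
      cnt (fun p : Fin L × Fin L => p.1 < p.2 ∧ ∃ i j, ω p.1 i = ω p.2 j) < x := by
    by_contra hcon
    have h1 : ∀ ω : Fin L → (Fin M → V), (∃ S, γ * n ^ M ≤ cnt (Ab S) ∧
      cnt (fun i => Ab S (ω i)) < γ * L / 8) ∨
        x ≤ cnt (fun p : Fin L × Fin L => p.1 < p.2 ∧ ∃ i j, ω p.1 i = ω p.2 j) := by
      intro ω
      by_contra h
      rw [not_or] at h
      refine hcon ⟨ω, fun S hS => ?_, not_le.1 h.2⟩
      by_contra h3
      exact h.1 ⟨S, hS, not_le.1 h3⟩
    have h2 := (cnt_mono (P := fun _ : Fin L → (Fin M → V) => True) fun ω _ => h1 ω).trans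
      (cnt_or_le _ _)
    rw [cnt_true, hΩ] at h2
    linarith
  set D : Finset (Fin L) := univ.filter (fun j => ∃ i, i < j ∧ ∃ a c, ω i a = ω j c) with hD
  set I : Finset (Fin L) := univ.filter (fun i => i ∉ D ∧ Gd (ω i)) with hI
  have hdis : ∀ i ∈ I, ∀ j ∈ I, i < j → ∀ a c, ω i a ≠ ω j c := by
    intro i _ j hj hij a c h
    rw [hI, mem_filter] at hj
    refine hj.2.1 ?_
    rw [hD, mem_filter]
    exact ⟨mem_univ _, i, hij, a, c, h⟩
  have hdis2 : ∀ i ∈ I, ∀ j ∈ I, i ≠ j → ∀ a c, ω i a ≠ ω j c := by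
    intro i hi j hj hij a c h
    rcases lt_or_gt_of_ne hij with h1 | h1
    · exact hdis i hi j hj h1 a c h
    · exact hdis j hj i hi h1 c a h.symm
  have hinj : Set.InjOn ω I := by
    intro i hi j hj h
    by_contra hij
    exact hdis2 i hi j hj hij ⟨0, hM⟩ ⟨0, hM⟩ (congrFun h _)
  have hDcard : (D.card : ℝ) ≤ x := by
    refine le_trans ?_ hω2.le
    rw [cnt_eq_card]
    have h1 : D ⊆ (univ.filter (fun p : Fin L × Fin L => p.1 < p.2 ∧ ∃ i j, ω p.1 i = ω p.2 j)).image
        Prod.snd := by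
      intro j hj
      rw [hD, mem_filter] at hj
      obtain ⟨_, i, hij, a, c, h⟩ := hj
      rw [mem_image]
      exact ⟨(i, j), by rw [mem_filter]; exact ⟨mem_univ _, hij, a, c, h⟩, rfl⟩
    exact_mod_cast (card_le_card h1).trans card_image_le
  refine ⟨I.image ω, ?_, ?_, ?_, ?_⟩
  · intro A hA
    obtain ⟨i, hi, rfl⟩ := mem_image.1 hA
    rw [hI, mem_filter] at hi
    exact hi.2.2
  · intro A hA B hB hAB
    obtain ⟨i, hi, rfl⟩ := mem_image.1 hA
    obtain ⟨j, hj, rfl⟩ := mem_image.1 hB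
    have hij : i ≠ j := fun h => hAB (by rw [h])
    rw [disjoint_left]
    intro v h1 h2
    obtain ⟨a, _, rfl⟩ := mem_image.1 h1
    obtain ⟨c, _, h3⟩ := mem_image.1 h2
    exact hdis2 i hi j hj hij a c h3.symm
  · have h1 : ((I.image ω).card : ℝ) ≤ L := by
      have h2 : (I.image ω).card ≤ I.card := card_image_le
      have h3 : I.card ≤ L := by
        have := card_le_univ I
        rwa [Fintype.card_fin] at this
      exact_mod_cast h2.trans h3
    calc ((I.image ω).card : ℝ) * M ≤ (lam * n) * M := mul_le_mul_of_nonneg_right (h1.trans hL1) hM0.le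
      _ = (lam * M) * n := by ring
      _ ≤ μ * n := mul_le_mul_of_nonneg_right hlam1 hnpos.le
  · intro S hS
    have h1 := hω1 S hS
    have h2 : cnt (fun i => Ab S (ω i)) ≤ ((I.filter fun i => Ab S (ω i)).card : ℝ) + D.card := by
      rw [cnt_eq_card]
      have h3 : univ.filter (fun i => Ab S (ω i)) ⊆ (I.filter fun i => Ab S (ω i)) ∪ D := by
        intro i hi
        rw [mem_filter] at hi
        rw [mem_union]
        by_cases hiD : i ∈ D
        · exact Or.inr hiD
        · left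
          rw [mem_filter, hI, mem_filter]
          exact ⟨⟨mem_univ _, hiD, hAb _ _ hi.2⟩, hi.2⟩
      exact_mod_cast (card_le_card h3).trans (card_union_le _ _)
    have h4 : ((I.filter fun i => Ab S (ω i)).card : ℝ) ≤ cnt (fun A => A ∈ I.image ω ∧ Ab S A) := by
      rw [cnt_eq_card]
      have h5 : (I.filter fun i => Ab S (ω i)).image ω ⊆ univ.filter (fun A => A ∈ I.image ω ∧ Ab S A) := by
        intro A hA
        obtain ⟨i, hi, rfl⟩ := mem_image.1 hA
        rw [mem_filter] at hi ⊢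
        exact ⟨mem_univ _, mem_image_of_mem _ hi.1, hi.2⟩
      have h6 : ((I.filter fun i => Ab S (ω i)).image ω).card = (I.filter fun i => Ab S (ω i)).card := by
        refine card_image_of_injOn fun i hi j hj h => ?_
        refine hinj ?_ ?_ h
        · exact (mem_filter.1 hi).1
        · exact (mem_filter.1 hj).1
      rw [← h6]
      exact_mod_cast card_le_card h5
    have h7 : x ≤ γ * lam / 32 * n := by
      rw [hx]
      have : 4 * lam ^ 2 * M ^ 2 * n = (lam * (128 * M ^ 2)) * (lam * n) / 32 := by ring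
      rw [this]
      have h8 : (lam * (128 * (M : ℝ) ^ 2)) * (lam * n) ≤ γ * (lam * n) :=
        mul_le_mul_of_nonneg_right hlam2 (by positivity)
      linarith
    have h9 : γ * (lam * n / 2) ≤ γ * L := mul_le_mul_of_nonneg_left (by linarith) hγ.le
    linarith

end Pool.Agent.Q54.KP
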