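import Pool.Agent.Q54.KP.StmA

/-! # Project KP (helper54), jobs FAM1 and FAM2 -/

set_option autoImplicit false

namespace Pool.Agent.Q54.KP

open Finset

/-- **FAM1**: exponential moment -/
theorem fam1 : S_FAM1 := by
  classical
  intro α _ B L γ x hγ0 hγ1 hx hB
  set g : α → ℝ := fun a => if B a then 1 / 2 else 1 with hgdef
  have hg0 : ∀ a, 0 ≤ g a := by
    intro a
    rw [hgdef]
    simp only
    split_ifs <;> norm_num
  have hg : ∑ a, g a = nn α - cnt B / 2 := by
    have h1 : ∀ a, g a = 1 - (if B a then (1 : ℝ) else 0) / 2 := by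
      intro a
      rw [hgdef]
      simp only
      split_ifs <;> norm_num
    rw [sum_congr rfl fun a _ => h1 a, sum_sub_distrib, ← sum_div, cnt_eq_sum, nn]
    simp
  have hprod : ∀ ω : Fin L → α, ∏ i, g (ω i) = (1 / 2 : ℝ) ^ ((univ.filter fun i => B (ω i)).card) := by
    intro ω
    rw [hgdef]
    simp only
    rw [Finset.prod_ite]
    simp
  have h1 : cnt (fun ω : Fin L → α => cnt (fun i => B (ω i)) < x) * (2 : ℝ) ^ (-x) ≤
      ∑ ω : Fin L → α, ∏ i, g (ω i) := by
    rw [cnt_eq_sum, sum_mul]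
    refine sum_le_sum fun ω _ => ?_
    split_ifs with h
    · rw [one_mul, hprod]
      rw [cnt_eq_card] at h
      rw [one_div, inv_pow, ← Real.rpow_natCast, ← Real.rpow_neg (by norm_num)]
      exact Real.rpow_le_rpow_of_exponent_le (by norm_num) (by linarith)
    · rw [zero_mul]
      exact prod_nonneg fun i _ => hg0 _
  rw [← Fintype.sum_pow, hg] at h1
  have h2 : 0 ≤ nn α - cnt B / 2 := by
    have := cnt_le_nn B
    have := cnt_nonneg B
    linarith
  have h3 : nn α - cnt B / 2 ≤ (1 - γ / 2) * nn α := by linarith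
  have h4 : (nn α - cnt B / 2) ^ L ≤ (1 - γ / 2) ^ L * nn α ^ L := by
    rw [← mul_pow]
    exact pow_le_pow_left₀ h2 h3 L
  have h5 : (2 : ℝ) ^ (-x) = ((2 : ℝ) ^ x)⁻¹ := Real.rpow_neg (by norm_num) x
  have h6 : (0 : ℝ) < (2 : ℝ) ^ x := Real.rpow_pos_of_pos (by norm_num) x
  rw [h5, ← div_eq_mul_inv, div_le_iff₀ h6] at h1
  calc cnt (fun ω : Fin L → α => cnt (fun i => B (ω i)) < x) ≤ (nn α - cnt B / 2) ^ L * 2 ^ x := h1
    _ ≤ ((1 - γ / 2) ^ L * nn α ^ L) * 2 ^ x := mul_le_mul_of_nonneg_right h4 h6.le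
    _ = _ := by ring

/-- union bound -/
lemma cnt_exists_le {α ι : Type} [Finite α] [Fintype ι] (P : ι → α → Prop) :
    cnt (fun x => ∃ i, P i x) ≤ ∑ i, cnt (P i) := by
  classical
  haveI := Fintype.ofFinite α
  simp only [cnt_eq_card]
  rw [← Nat.cast_sum, Nat.cast_le]
  have h : univ.filter (fun x => ∃ i, P i x) ⊆ univ.biUnion fun i => univ.filter (P i) := by
    intro x hx
    rw [mem_filter] at hx
    obtain ⟨i, hi⟩ := hx.2
    rw [mem_biUnion]
    exact ⟨i, mem_univ _, by rw [mem_filter]; exact ⟨mem_univ _, hi⟩⟩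
  exact (card_le_card h).trans card_biUnion_le

/-- collisions of two coordinates -/
lemma coll {V : Type} [Fintype V] {L M : ℕ} (a b : Fin L) (hab : b ≠ a) (i j : Fin M) :
    cnt (fun ω : Fin L → Fin M → V => ω a i = ω b j) * nn V ≤ (nn V ^ M) ^ L := by
  classical
  unfold cnt nn
  have h : Nat.card {ω : Fin L → Fin M → V // ω a i = ω b j} * Fintype.card V ≤
      Nat.card (Fin L → Fin M → V) := by
    rw [← Nat.card_eq_fintype_card (α := V), ← Nat.card_prod]
    refine Nat.card_le_card_of_injective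
      (fun p : {ω : Fin L → Fin M → V // ω a i = ω b j} × V =>
        Function.update p.1.1 a (Function.update (p.1.1 a) i p.2)) ?_
    rintro ⟨⟨ω, h1⟩, v⟩ ⟨⟨ω', h2⟩, v'⟩ h
    simp only at h
    have e1 : v = v' := by
      have := congrFun (congrFun h a) i
      simpa using this
    have e2 : ∀ c, c ≠ a → ω c = ω' c := by
      intro c hc
      have := congrFun h c
      rwa [Function.update_of_ne hc, Function.update_of_ne hc] at this
    have e3 : ω a = ω' a := by
      funext k
      by_cases hk : k = i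
      · rw [hk, h1, h2, e2 b hab]
      · have := congrFun (congrFun h a) k
        simpa [Function.update_of_ne hk] using this
    have e4 : ω = ω' := by
      funext c
      by_cases hc : c = a
      · rw [hc, e3]
      · exact e2 c hc
    subst e1 e4
    rfl
  have h2 : Nat.card (Fin L → Fin M → V) = (Fintype.card V ^ M) ^ L := by
    rw [Nat.card_eq_fintype_card]
    simp
  rw [h2] at h
  exact_mod_cast h

/-- **FAM2**: few intersecting pairs -/
theorem fam2 : S_FAM2 := by
  classical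
  intro V _ _ M L x hx
  set Z : (Fin L → Fin M → V) → Fin L × Fin L → Prop :=
    fun ω p => p.1 < p.2 ∧ ∃ i j, ω p.1 i = ω p.2 j with hZ
  have hn : 0 < nn V := by
    unfold nn
    exact_mod_cast Fintype.card_pos
  have h1 : cnt (fun ω => x ≤ cnt (Z ω)) * x ≤ ∑ ω, cnt (Z ω) := by
    rw [cnt_eq_sum, sum_mul]
    refine sum_le_sum fun ω _ => ?_
    split_ifs with h
    · rw [one_mul]
      exact h
    · rw [zero_mul]
      exact cnt_nonneg _
  have h2 : ∑ ω, cnt (Z ω) = ∑ p, cnt (fun ω => Z ω p) := by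
    simp only [cnt_eq_sum]
    exact sum_comm
  have h3 : ∀ p : Fin L × Fin L, cnt (fun ω => Z ω p) ≤ M ^ 2 * ((nn V ^ M) ^ L / nn V) := by
    intro p
    by_cases hp : p.1 < p.2
    · have h4 : ∀ i j : Fin M, cnt (fun ω : Fin L → Fin M → V => ω p.1 i = ω p.2 j) ≤
          (nn V ^ M) ^ L / nn V := by
        intro i j
        rw [le_div_iff₀ hn]
        exact coll p.1 p.2 hp.ne' i j
      calc cnt (fun ω => Z ω p) ≤ cnt (fun ω : Fin L → Fin M → V => ∃ i, ∃ j, ω p.1 i = ω p.2 j) :=
            cnt_mono fun ω h => h.2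
        _ ≤ ∑ i, cnt (fun ω : Fin L → Fin M → V => ∃ j, ω p.1 i = ω p.2 j) := cnt_exists_le _
        _ ≤ ∑ i : Fin M, ∑ j : Fin M, cnt (fun ω : Fin L → Fin M → V => ω p.1 i = ω p.2 j) :=
            sum_le_sum fun i _ => cnt_exists_le _
        _ ≤ ∑ i : Fin M, ∑ j : Fin M, (nn V ^ M) ^ L / nn V :=
            sum_le_sum fun i _ => sum_le_sum fun j _ => h4 i j
        _ = M ^ 2 * ((nn V ^ M) ^ L / nn V) := by
            simp
            ring
    · have h4 : cnt (fun ω => Z ω p) = 0 := by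
        rw [cnt_eq_card]
        have : univ.filter (fun ω => Z ω p) = ∅ := by
          rw [filter_eq_empty_iff]
          intro ω _ h
          exact hp h.1
        rw [this]
        simp
      rw [h4]
      positivity
  calc cnt (fun ω => x ≤ cnt (Z ω)) * x ≤ ∑ p, cnt (fun ω => Z ω p) := h1.trans h2.le
    _ ≤ ∑ _p : Fin L × Fin L, (M : ℝ) ^ 2 * ((nn V ^ M) ^ L / nn V) := sum_le_sum fun p _ => h3 p
    _ = _ := by
      simp
      ring

end Pool.Agent.Q54.KP
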