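import Pool.Agent.Q54.KP.StmB

/-! # Project KP (helper54), job TRI: a tile is partitioned by six copies of `H` -/

set_option autoImplicit false

namespace Pool.Agent.Q54.KP

open Finset

/-- **TRI** -/
theorem tri : S_TRI := by
  classical
  intro W V _ _ _ _ _ H E κ hH hκ
  obtain ⟨f, hf⟩ := hH
  have hcard : Fintype.card (Fin 2 × W) = 2 * Fintype.card W := by
    rw [Fintype.card_prod, Fintype.card_fin]
  set e : Fin 2 × W ≃ Fin (2 * Fintype.card W) := Fintype.equivFinOfCardEq hcard with he
  set φ : Fin 3 × Fin 2 → W ↪ V := fun q => ⟨fun w => κ (f w + q.1, e (q.2, w)), by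
    intro w w' h
    have h1 := hκ.1 h
    rw [Prod.mk.injEq] at h1
    have h2 := e.injective h1.2
    rw [Prod.mk.injEq] at h2
    exact h2.2⟩ with hφ
  have hφv : ∀ q w, φ q w = κ (f w + q.1, e (q.2, w)) := fun q w => rfl
  refine ⟨univ.image φ, ?_, ?_, ?_⟩
  · intro ψ hψ
    obtain ⟨q, _, rfl⟩ := mem_image.1 hψ
    intro e0 he0
    have hw : ∀ k : Fin 3, ∃ w ∈ e0, f w + q.1 = k ∧ ∀ w' ∈ e0, f w' + q.1 = k → w' = w := by
      intro k
      have h1 := hf e0 he0 (k - q.1)
      obtain ⟨w, hw⟩ := card_eq_one.1 h1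
      have h2 : w ∈ e0.filter (fun v => f v = k - q.1) := by
        rw [hw]
        exact mem_singleton_self _
      rw [mem_filter] at h2
      refine ⟨w, h2.1, ?_, ?_⟩
      · rw [h2.2, sub_add_cancel]
      · intro w' hw' h3
        have h4 : w' ∈ e0.filter (fun v => f v = k - q.1) := by
          rw [mem_filter]
          exact ⟨hw', by rw [← h3, add_sub_cancel_right]⟩
        rw [hw, mem_singleton] at h4
        exact h4
    choose w hw1 hw2 hw3 using hw
    have hmap : e0.map (φ q) = {φ q (w 0), φ q (w 1), φ q (w 2)} := by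
      ext v
      simp only [mem_map, mem_insert, mem_singleton]
      constructor
      · rintro ⟨u, hu, rfl⟩
        have h1 := hw3 (f u + q.1) u hu rfl
        have h2 : ∀ k : Fin 3, k = 0 ∨ k = 1 ∨ k = 2 := by decide
        rcases h2 (f u + q.1) with h | h | h
        · left
          rw [h] at h1
          rw [← h1]
        · right
          left
          rw [h] at h1
          rw [← h1]
        · right
          right
          rw [h] at h1
          rw [← h1]
      · rintro (rfl | rfl | rfl)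
        · exact ⟨_, hw1 0, rfl⟩
        · exact ⟨_, hw1 1, rfl⟩
        · exact ⟨_, hw1 2, rfl⟩
    rw [hmap, hφv, hφv, hφv, hw2, hw2, hw2]
    exact hκ.2 _ _ _
  · intro ψ hψ ψ' hψ' hne
    obtain ⟨q, _, rfl⟩ := mem_image.1 hψ
    obtain ⟨q', _, rfl⟩ := mem_image.1 hψ'
    rw [disjoint_left]
    intro v h1 h2
    rw [mem_map] at h1 h2
    obtain ⟨u, _, rfl⟩ := h1
    obtain ⟨u', _, h3⟩ := h2
    rw [hφv, hφv] at h3
    have h4 := hκ.1 h3
    rw [Prod.mk.injEq] at h4
    have h5 := e.injective h4.2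
    rw [Prod.mk.injEq] at h5
    have h6 := h4.1
    rw [h5.2] at h6
    have h7 := add_left_cancel h6
    refine hne ?_
    congr 1
    exact Prod.ext h7.symm h5.1.symm
  · ext v
    simp only [mem_biUnion, mem_image, mem_univ, true_and, mem_map]
    constructor
    · rintro ⟨ψ, ⟨q, rfl⟩, u, rfl⟩
      exact ⟨_, rfl⟩
    · rintro ⟨⟨k, l⟩, rfl⟩
      refine ⟨φ (k - f (e.symm l).2, (e.symm l).1), ⟨_, rfl⟩, (e.symm l).2, ?_⟩
      rw [hφv]
      simp only [Prod.mk.eta, Equiv.apply_symm_apply, add_sub_cancel]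

end Pool.Agent.Q54.KP
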